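import Pool.Agent.Lib.SVU.Main
import Pool.Agent.Lib.SVT.Rot

/-!
# (a:b)-colourings, a/b ≥ 7/2, of planar graphs without 4- and 5-cycles whose 6-cycles contain at
most one triangle edge

Let `G` be a finite planar graph with no cycle of length 4 or 5 such that every cycle of length 6
contains at most one edge that lies in a triangle. Then for all `a`, `b` with `a/b ≥ 7/2` every vertex
can be given `b` of `a` colours such that adjacent vertices get disjoint sets. So the strong fractional
chromatic number (and the fractional chromatic number) of `G` is at most `7/2`.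
-/

set_option autoImplicit false
set_option linter.style.haveILetI false

namespace Pool.Agent.Results.MP_0229a2_co.SixOne

/-- The reversal of the darts (oriented edges) of a simple graph. -/
def flipDart {V : Type} (H : SimpleGraph V) : Equiv.Perm H.Dart :=
  Function.Involutive.toPerm SimpleGraph.Dart.symm SimpleGraph.Dart.symm_involutive

/-- The connected graph `H` has a planar rotation system (the standard combinatorial description
of an embedding in the sphere): a permutation `σ` of its darts whose cycles are exactly the sets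
of darts with the same starting vertex, such that `#V + #faces = #E + 2`, the faces being the
cycles of `σ * flipDart H`. -/
def SphereRotation {V : Type} (H : SimpleGraph V) : Prop :=
  H.Connected ∧ ∃ σ : Equiv.Perm H.Dart,
    (∀ d e : H.Dart, d.fst = e.fst ↔ σ.SameCycle d e) ∧
    Nat.card V + Nat.card (Quotient (Equiv.Perm.SameCycle.setoid (σ * flipDart H))) =
      Nat.card H.edgeSet + 2

/-- Planarity of a finite simple graph: it has no edge, or it is a spanning subgraph of a
connected graph with a planar rotation system. -/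
def Planar {V : Type} (G : SimpleGraph V) : Prop :=
  G = ⊥ ∨ ∃ H : SimpleGraph V, G ≤ H ∧ SphereRotation H

/-- The edge `e` lies in a triangle of `G`. -/
def InTriangle {V : Type} (G : SimpleGraph V) (e : Sym2 V) : Prop :=
  ∃ x y z : V, G.Adj x y ∧ G.Adj y z ∧ G.Adj z x ∧ e = s(x, y)

theorem result (V : Type) [Finite V] (G : SimpleGraph V) (hG : Planar G)
    (h45 : ∀ (v : V) (c : G.Walk v v), c.IsCycle → c.length ≠ 4 ∧ c.length ≠ 5)
    (h6 : ∀ (v : V) (c : G.Walk v v), c.IsCycle → c.length = 6 →
      ∀ e ∈ c.edges, ∀ f ∈ c.edges, InTriangle G e → InTriangle G f → e = f)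
    (a b : ℕ) (hab : 7 * b ≤ 2 * a) :
    ∃ φ : V → Finset (Fin a), (∀ v, (φ v).card = b) ∧
      ∀ u v, G.Adj u v → Disjoint (φ u) (φ v) := by
  classical
  haveI := Fintype.ofFinite V
  have hc : Pool.Agent.Lib.SVU.Cyc6 G := by
    intro v c hcyc
    refine ⟨(h45 v c hcyc).1, (h45 v c hcyc).2, ?_⟩
    intro hl x y x' y' he he' ht ht'
    obtain ⟨w, hw1, hw2⟩ := ht
    obtain ⟨w', hw1', hw2'⟩ := ht'
    have a1 : G.Adj x y := c.edges_subset_edgeSet he
    have a2 : G.Adj x' y' := c.edges_subset_edgeSet he'
    exact h6 v c hcyc hl _ he _ he' ⟨x, y, w, a1, hw2.symm, hw1.symm, rfl⟩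
      ⟨x', y', w', a2, hw2'.symm, hw1'.symm, rfl⟩
  have hML : Pool.Agent.Lib.SVT.ML (Pool.Agent.Lib.SVT.edg G Finset.univ) := by
    rcases hG with rfl | ⟨H, hGH, hconn, σ, hσ, heul⟩
    · refine ⟨∅, by simp, by simp, fun c _ => ⟨fun _ => 0, fun x y h => ?_⟩⟩
      exact absurd (Pool.Agent.Lib.SVT.mem_edg'.1 h).1 (by simp)
    · have hML : Pool.Agent.Lib.SVT.ML (Pool.Agent.Lib.SVT.edg H Finset.univ) :=
        Pool.Agent.Lib.SVT.ML_of_rot H hconn σ hσ heul
      refine hML.mono fun e he => ?_
      rw [Pool.Agent.Lib.SVT.mem_edg] at he ⊢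
      exact ⟨SimpleGraph.edgeSet_mono hGH he.1, fun v _ => Finset.mem_univ v⟩
  exact Pool.Agent.Lib.SVU.strong6 hML hc hab

end Pool.Agent.Results.MP_0229a2_co.SixOne
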